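import Pool.Agent.MWA.Stmts

/-!
# Row BTF of squad MWA: transfer of types
-/

namespace Pool.Agent.MWA.H13

open Pool.Agent.Helper14_MV Pool.Agent.Helper2_MV Pool.Agent.MVO Pool.Agent.MWL Pool.Agent.MWS
open Pool.Agent.MWA

theorem bl_eq0 (p q : ℕ) (e : Bool) :
    bl p q e = (if e then List.replicate q 1 else []) ++ List.replicate p 0 ++
      (if e then [] else List.replicate q 1) := by
  cases e <;> simp [bl]

theorem bl_eq1 (p q : ℕ) (e : Bool) :
    bl p q e = (if e then [] else List.replicate p 0) ++ List.replicate q 1 ++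
      (if e then List.replicate p 0 else []) := by
  cases e <;> simp [bl]

theorem w2_tr (chk : MWS.ChkStmt) (θ : FIC) (k : ℕ) (a a' b b' : ℕ → ℕ) (ha : L1 θ k a a')
    (hb : L1 θ k b b') (e : ℕ → Bool) : RR θ (w2 k a b e) (w2 k a' b' e) := by
  have h1 := chk θ k a a' 0 (fun j => if e j then List.replicate (b j) 1 else [])
    (fun j => if e j then [] else List.replicate (b j) 1) ha
  have h2 := chk θ k b b' 1 (fun j => if e j then [] else List.replicate (a' j) 0)
    (fun j => if e j then List.replicate (a' j) 0 else []) hb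
  have e1 : w2 k a b e = asm k (fun j => (if e j then List.replicate (b j) 1 else []) ++
      List.replicate (a j) 0 ++ (if e j then [] else List.replicate (b j) 1)) :=
    asm_congr (fun j _ => bl_eq0 (a j) (b j) (e j))
  have e2 : w2 k a' b e = asm k (fun j => (if e j then List.replicate (b j) 1 else []) ++
      List.replicate (a' j) 0 ++ (if e j then [] else List.replicate (b j) 1)) :=
    asm_congr (fun j _ => bl_eq0 (a' j) (b j) (e j))
  have e3 : w2 k a' b e = asm k (fun j => (if e j then [] else List.replicate (a' j) 0) ++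
      List.replicate (b j) 1 ++ (if e j then List.replicate (a' j) 0 else [])) :=
    asm_congr (fun j _ => bl_eq1 (a' j) (b j) (e j))
  have e4 : w2 k a' b' e = asm k (fun j => (if e j then [] else List.replicate (a' j) 0) ++
      List.replicate (b' j) 1 ++ (if e j then List.replicate (a' j) 0 else [])) :=
    asm_congr (fun j _ => bl_eq1 (a' j) (b' j) (e j))
  have g1 : RR θ (w2 k a b e) (w2 k a' b e) := by
    rw [e1, e2]; exact h1
  have g2 : RR θ (w2 k a' b e) (w2 k a' b' e) := by
    rw [e3, e4]; exact h2
  exact θ.trans g1 g2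

theorem btf (chk : MWS.ChkStmt) : BtfStmt := by
  intro θ k a a' b b' ha hb
  refine ⟨w2_tr chk θ k a a' b b' ha hb, ?_⟩
  intro i h e
  have g1 := w2_tr chk θ k a a' b b' ha hb e
  have g2 := w2_tr chk θ k a a' b b' ha hb (flp e i)
  exact θ.trans (θ.trans g1 (h e)) g2.symm

end Pool.Agent.MWA.H13
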