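import Pool.Agent.MWA.StmtsB

/-!
# Row RDA of squad MWA
-/

namespace Pool.Agent.MWA.H13

open Pool.Agent.Helper14_MV Pool.Agent.Helper2_MV Pool.Agent.MVO Pool.Agent.MWL Pool.Agent.MWS
open Pool.Agent.MWA

theorem exists_before {k i : ℕ} {b : ℕ → ℕ} (hd : 2 ≤ deg k b) (hl : Lst k b i) (h1 : b i = 1) :
    ∃ p, p < i ∧ 1 ≤ b p := by
  by_contra hcon
  have h0 : ∀ j ∈ Finset.range (k + 1), j ≠ i → b j = 0 := by
    intro j hj hne
    have hjk : j ≤ k := by
      have := Finset.mem_range.1 hj
      omega
    by_cases hji : j < i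
    · by_contra h
      exact hcon ⟨j, hji, by omega⟩
    · exact hl.2.2 j (by omega) hjk
  have hs : deg k b = b i := by
    unfold deg
    exact Finset.sum_eq_single i h0 (fun h => absurd (Finset.mem_range.2 (by have := hl.1; omega)) h)
  omega

theorem rda_aux (use : UseStmt) (bta : BtaStmt) (β : FIC) (hβ : BsA β) (hA : A1f β) (k : ℕ)
    (a b : ℕ → ℕ) (i : ℕ) (hb : 2 ≤ deg k b) (hla : Lst k a i) (hlb : Lst k b i)
    (h2 : 2 ≤ a i) : Bt β k a b i := by
  obtain ⟨_, sym, hvy⟩ := bta β hβ
  by_cases hbi : 2 ≤ b i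
  · exact hvy k a b i hla.1 h2 hbi
  · have hb1 : b i = 1 := by
      have := hlb.2.1
      omega
    obtain ⟨p, hp, hbp⟩ := exists_before hb hlb hb1
    apply sym
    refine (use β hβ.cl).1 1 1 0 2 k p i b a (by omega) (by omega) (by omega) (by omega) hA
      (by omega) hla.1 ?_ ?_
    · intro t _
      by_cases e1 : t = p
      · subst e1
        rw [if_pos rfl, if_neg (by omega)]
        omega
      · by_cases e2 : t = i
        · subst e2
          rw [if_neg e1, if_pos rfl]
          omega
        · rw [if_neg e1, if_neg e2]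
          omega
    · intro t _
      by_cases e2 : t = i
      · subst e2
        rw [if_pos rfl, ite_self]
        omega
      · rw [if_neg e2, ite_self]
        omega

theorem rda (use : UseStmt) (bta : BtaStmt) : RdaStmt := by
  intro β hβ hA k a b i ha hb hla hlb h
  rcases h with h | h
  · exact rda_aux use bta β hβ hA k a b i hb hla hlb h
  · exact (bta β hβ).2.1 k b a i (rda_aux use bta β hβ hA k b a i ha hlb hla h)

end Pool.Agent.MWA.H13
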