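import Pool.Agent.MWA.StmtsQ
import Pool.Agent.Helper13_MWA.RDA

/-!
# Row RDP of squad MWA
-/

namespace Pool.Agent.MWA.H13

open Pool.Agent.Helper14_MV Pool.Agent.Helper2_MV Pool.Agent.MVO Pool.Agent.MWL Pool.Agent.MWS
open Pool.Agent.MWA

theorem rdp_aux (use : UseStmt) (btp : BtpStmt) (β : FIC) (hcl : ClA β) (hr0 : R0 β) (hA : A1f β)
    (k : ℕ) (a b : ℕ → ℕ) (i : ℕ) (hb : 2 ≤ deg k b) (hla : Lst k a i) (hlb : Lst k b i)
    (h2 : 2 ≤ a i) : Bt β k a b i := by
  obtain ⟨_, sym, hvy⟩ := btp β hcl hr0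
  by_cases hbi : 2 ≤ b i
  · exact hvy k a b i hla.1 h2 hbi
  · have hb1 : b i = 1 := by
      have := hlb.2.1
      omega
    obtain ⟨p, hp, hbp⟩ := exists_before hb hlb hb1
    apply sym
    refine (use β hcl).1 1 1 0 2 k p i b a (by omega) (by omega) (by omega) (by omega) hA
      (by omega) hla.1 ?_ ?_
    · intro t _
      by_cases e1 : t = p
      · subst e1
        rw [if_pos rfl, if_neg (by omega)]
        omega
      · by_cases e2 : t = i
        · subst e2
          rw [if_neg e1, if_pos rfl]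
          omega
        · rw [if_neg e1, if_neg e2]
          omega
    · intro t _
      by_cases e2 : t = i
      · subst e2
        rw [if_pos rfl, ite_self]
        omega
      · rw [if_neg e2, ite_self]
        omega

theorem rdp (use : UseStmt) (btp : BtpStmt) : RdpStmt := by
  intro β hcl hr0 hA k a b i ha hb hla hlb h
  rcases h with h | h
  · exact rdp_aux use btp β hcl hr0 hA k a b i hb hla hlb h
  · exact (btp β hcl hr0).2.1 k b a i (rdp_aux use btp β hcl hr0 hA k b a i ha hlb hla h)

end Pool.Agent.MWA.H13
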